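import Pool.Agent.MP_cc703c_co.Proof

namespace Pool.Agent.Results.MP_cc703c_co.RealizationInR4

open Pool.Agent.MP_cc703c_co

/-- Some geometric simplicial complex in `ℝ^4` is combinatorially equivalent to the Cairns-type
complex, i.e. `b = 4` given the known lower bound `b ≥ 4`. -/
theorem result : ∃ K : Geometry.SimplicialComplex ℝ (EuclideanSpace ℝ (Fin 4)),
    Nonempty (K.faces ≃o cairnsFaces) := hasLinearRealization

end Pool.Agent.Results.MP_cc703c_co.RealizationInR4
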